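import Mathlib

namespace Pool.Agent.Lib.MP_7db704_nt

open Finset Polynomial

variable {R : Type*} [CommRing R]

/-- Legendre-type polynomial `P_n(1-2x)` -/
def Fp (n : ℕ) (x : R) : R :=
  ∑ k ∈ range (n + 1), (n.choose k : R) * ((n + k).choose n : R) * (-x) ^ k

/-- `∑ C(n,k)^2 x^k` -/
def Bp (n : ℕ) (x : R) : R := ∑ k ∈ range (n + 1), (n.choose k : R) ^ 2 * x ^ k

lemma Fp_eq_aeval (n : ℕ) (x : R) : Fp n x = aeval x (shiftedLegendre n) := by
  unfold Fp shiftedLegendre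
  rw [map_sum]
  refine sum_congr rfl fun k _ => ?_
  rw [neg_pow]
  simp
  ring

lemma Fp_symm (n : ℕ) (x : R) : Fp n (1 - x) = (-1) ^ n * Fp n x := by
  rw [Fp_eq_aeval, Fp_eq_aeval, shiftedLegendre_eval_symm n x, ← mul_assoc, ← mul_pow]
  simp

lemma coeff_one_add_X_pow_mul (n : ℕ) (x : R) :
    (((1 : R[X]) + X) ^ n * (1 + C x * X) ^ n).coeff n = Bp n x := by
  have h1 : ((1 : R[X]) + C x * X) ^ n = ∑ k ∈ range (n + 1), C ((n.choose k : R) * x ^ k) * X ^ k := by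
    rw [add_comm, add_pow]
    refine sum_congr rfl fun k _ => ?_
    rw [mul_pow, ← C_pow, one_pow, mul_one, C_mul, C_eq_natCast]
    ring
  rw [h1, mul_sum, finsetSum_coeff]
  unfold Bp
  refine sum_congr rfl fun k hk => ?_
  have hk' : k ≤ n := by simpa [Nat.lt_succ_iff] using hk
  rw [mul_comm, mul_assoc, coeff_C_mul, coeff_X_pow_mul', if_pos hk', coeff_one_add_X_pow,
    Nat.choose_symm hk']
  ring

lemma Bp_eq_sum (n : ℕ) (x : R) : Bp n x =
    ∑ k ∈ range (n + 1), (n.choose k : R) * ((n + k).choose n : R) * x ^ k * (1 - x) ^ (n - k) := by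
  rw [← coeff_one_add_X_pow_mul]
  have h1 : ((1 : R[X]) + C x * X) = C x * (1 + X) + C (1 - x) := by
    rw [C_sub, C_1]; ring
  rw [h1, add_pow (C x * (1 + X)) (C (1 - x)) n, mul_sum, finsetSum_coeff]
  refine sum_congr rfl fun k hk => ?_
  have h2 : ((1 : R[X]) + X) ^ n * ((C x * (1 + X)) ^ k * C (1 - x) ^ (n - k) * (n.choose k : R[X]))
      = C (x ^ k * (1 - x) ^ (n - k) * (n.choose k : R)) * (1 + X) ^ (n + k) := by
    rw [mul_pow, C_mul, C_mul, C_pow, C_pow, C_eq_natCast, pow_add]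
    ring
  rw [h2, coeff_C_mul, coeff_one_add_X_pow]
  ring

lemma coeff_sub_one_sq (k : ℕ) : (((X : R[X]) - 1) ^ (2 * k)).coeff k
    = (-1) ^ k * (Nat.centralBinom k : R) := by
  have h := coeff_X_add_C_pow (-1 : R) (2 * k) k
  rw [C_neg, C_1, ← sub_eq_add_neg] at h
  rw [h, Nat.centralBinom_eq_two_mul_choose]
  congr 2
  omega

lemma Bp_sq (n : ℕ) (z : R) : Bp n (z ^ 2) =
    ∑ k ∈ range (n + 1), (n.choose k : R) * ((-1) ^ k * (Nat.centralBinom k : R)) * z ^ k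
      * ((1 + z) ^ 2) ^ (n - k) := by
  have hB : Bp n (z ^ 2) = (((1 : R[X]) + C z * X) ^ n * (X + C z) ^ n).coeff n := by
    have h1 : ((1 : R[X]) + C z * X) ^ n
        = ∑ k ∈ range (n + 1), C ((n.choose k : R) * z ^ k) * X ^ k := by
      rw [add_comm, add_pow]
      refine sum_congr rfl fun k _ => ?_
      rw [mul_pow, ← C_pow, one_pow, mul_one, C_mul, C_eq_natCast]
      ring
    rw [h1, sum_mul, finsetSum_coeff]
    unfold Bp
    refine sum_congr rfl fun k hk => ?_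
    have hk' : k ≤ n := by simpa [Nat.lt_succ_iff] using hk
    rw [mul_assoc, coeff_C_mul, coeff_X_pow_mul', if_pos hk', coeff_X_add_C_pow,
      Nat.choose_symm hk', Nat.sub_sub_self hk']
    ring
  have h2 : ((1 : R[X]) + C z * X) * (X + C z) = C z * (X - 1) ^ 2 + C ((1 + z) ^ 2) * X := by
    simp only [C_add, C_pow, C_1]; ring
  rw [hB, ← mul_pow, h2, add_pow, finsetSum_coeff]
  refine sum_congr rfl fun k hk => ?_
  have hk' : k ≤ n := by simpa [Nat.lt_succ_iff] using hk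
  have h3 : (C z * ((X : R[X]) - 1) ^ 2) ^ k * (C ((1 + z) ^ 2) * X) ^ (n - k) * (n.choose k : R[X])
      = C (z ^ k * ((1 + z) ^ 2) ^ (n - k) * (n.choose k : R)) * (X ^ (n - k) * (X - 1) ^ (2 * k)) := by
    generalize (1 + z) ^ 2 = c
    rw [mul_pow, mul_pow, ← pow_mul, C_mul, C_mul, C_pow, C_pow, C_eq_natCast]
    ring
  rw [h3, coeff_C_mul, coeff_X_pow_mul', if_pos (Nat.sub_le _ _), Nat.sub_sub_self hk',
    coeff_sub_one_sq]
  ring

end Pool.Agent.Lib.MP_7db704_nt
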