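import Mathlib
import Pool.Agent.Lib.MP_7db704_nt.Exact

namespace Pool.Agent.Lib.MP_7db704_nt

open Finset Polynomial

/-- Euler derivation -/
noncomputable def th (f : ℤ[X]) : ℤ[X] := X * derivative f

lemma th_mul (f g : ℤ[X]) : th (f * g) = th f * g + f * th g := by
  simp only [th, derivative_mul]; ring

lemma th_add (f g : ℤ[X]) : th (f + g) = th f + th g := by
  simp only [th, derivative_add]; ring

lemma th_sub (f g : ℤ[X]) : th (f - g) = th f - th g := by
  simp only [th, derivative_sub]; ring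

lemma th_neg (f : ℤ[X]) : th (-f) = -th f := by
  simp only [th, derivative_neg]; ring

lemma th_intCast (c : ℤ) : th (c : ℤ[X]) = 0 := by
  simp [th]

lemma th_one : th (1 : ℤ[X]) = 0 := by simp [th]

lemma th_two : th (2 : ℤ[X]) = 0 := by
  have := th_intCast 2; simpa using this

lemma th_four : th (4 : ℤ[X]) = 0 := by
  have := th_intCast 4; simpa using this

lemma th_X : th (X : ℤ[X]) = X := by simp [th]

lemma th_X_pow (k : ℕ) : th (X ^ k : ℤ[X]) = (k : ℤ[X]) * X ^ k := by
  induction k with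
  | zero => simp [th]
  | succ k ih =>
    rw [pow_succ, th_mul, ih, th_X]; push_cast; ring

lemma coeff_th (f : ℤ[X]) (k : ℕ) : (th f).coeff k = k * f.coeff k := by
  unfold th
  rcases k with _ | k
  · simp
  · rw [coeff_X_mul, coeff_derivative]; push_cast; ring

lemma coeff_X_mul_succ (f : ℤ[X]) (k : ℕ) : (X * f).coeff (k + 1) = f.coeff k := coeff_X_mul f k

/-- third order operator -/
noncomputable def LL (c : ℤ) (f : ℤ[X]) : ℤ[X] :=
  th ((1 - X) * ((1 - X) * th (th f) - X * th f + 2 * (c : ℤ[X]) * X * f))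
    + 2 * (c : ℤ[X]) * X * (1 - X) * th f

lemma LL_sub (c : ℤ) (f g : ℤ[X]) : LL c (f - g) = LL c f - LL c g := by
  unfold LL
  rw [th_sub, th_sub]
  have : (1 - X) * ((1 - X) * (th (th f) - th (th g)) - X * (th f - th g)
      + 2 * (c : ℤ[X]) * X * (f - g))
      = (1 - X) * ((1 - X) * th (th f) - X * th f + 2 * (c : ℤ[X]) * X * f)
        - (1 - X) * ((1 - X) * th (th g) - X * th g + 2 * (c : ℤ[X]) * X * g) := by ring
  rw [this, th_sub]
  ring

lemma eval_zero_th (f : ℤ[X]) : (th f).eval 0 = 0 := by simp [th]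

lemma LL_X_pow_mul (c : ℤ) (k : ℕ) (E : ℤ[X]) :
    ∃ G : ℤ[X], LL c (X ^ k * E) = X ^ k * G ∧ G.eval 0 = (k : ℤ) ^ 3 * E.eval 0 := by
  have h1 : th (X ^ k * E) = X ^ k * ((k : ℤ[X]) * E + th E) := by
    rw [th_mul, th_X_pow]; ring
  have h1' : ∀ F : ℤ[X], th (X ^ k * F) = X ^ k * ((k : ℤ[X]) * F + th F) := by
    intro F; rw [th_mul, th_X_pow]; ring
  set E1 := (k : ℤ[X]) * E + th E with hE1
  set E2 := (k : ℤ[X]) * E1 + th E1 with hE2
  set W := (1 - X) * ((1 - X) * E2 - X * E1 + 2 * (c : ℤ[X]) * X * E) with hW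
  refine ⟨(k : ℤ[X]) * W + th W + 2 * (c : ℤ[X]) * X * (1 - X) * E1, ?_, ?_⟩
  · unfold LL
    rw [h1' E, h1' E1]
    have : (1 - X) * ((1 - X) * (X ^ k * E2) - X * (X ^ k * E1) + 2 * (c : ℤ[X]) * X * (X ^ k * E))
        = X ^ k * W := by rw [hW]; ring
    rw [this, h1' W]
    ring
  · simp only [eval_add, eval_mul, eval_natCast, eval_zero_th, eval_X, hW, eval_sub, eval_one, hE2,
      hE1]
    simp
    ring

lemma LL_unique (c : ℤ) (D : ℤ[X]) (hD : LL c D = 0) (h0 : D.eval 0 = 0) : D = 0 := by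
  have hdvd : ∀ k : ℕ, 1 ≤ k → X ^ k ∣ D := by
    intro k hk
    induction k with
    | zero => omega
    | succ k ih =>
      rcases Nat.eq_zero_or_pos k with rfl | hkpos
      · rw [zero_add, pow_one, X_dvd_iff, coeff_zero_eq_eval_zero]
        exact h0
      · obtain ⟨E, hE⟩ := ih hkpos
        obtain ⟨G, hG, hG0⟩ := LL_X_pow_mul c k E
        rw [← hE, hD] at hG
        have hG' : G = 0 := by
          rcases mul_eq_zero.1 hG.symm with h | h
          · exact absurd h (pow_ne_zero _ X_ne_zero)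
          · exact h
        rw [hG', eval_zero] at hG0
        have hE0 : E.eval 0 = 0 := by
          rcases mul_eq_zero.1 hG0.symm with h | h
          · have : (k : ℤ) ≠ 0 := by exact_mod_cast hkpos.ne'
            exact absurd h (pow_ne_zero _ this)
          · exact h
        have hXE : X ∣ E := by
          rw [X_dvd_iff, coeff_zero_eq_eval_zero]; exact hE0
        obtain ⟨E', hE'⟩ := hXE
        exact ⟨E', by rw [hE, hE']; ring⟩
  by_contra hne
  have := hdvd (D.natDegree + 1) (by omega)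
  have h2 := natDegree_le_of_dvd this hne
  rw [natDegree_X_pow] at h2
  omega

lemma legendre_ode (n : ℕ) : (1 - X) * th (th (shiftedLegendre n))
    = X * (th (shiftedLegendre n) - (((n : ℤ) * (n + 1) : ℤ) : ℤ[X]) * shiftedLegendre n) := by
  ext k
  rw [sub_mul, one_mul, coeff_sub]
  rcases k with _ | k
  · rw [mul_coeff_zero, mul_coeff_zero, coeff_X_zero, coeff_th]; simp
  · rw [coeff_X_mul_succ, coeff_X_mul_succ, coeff_sub, coeff_intCast_mul, coeff_th, coeff_th, coeff_th,
      coeff_th, coeff_shiftedLegendre, coeff_shiftedLegendre]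
    have h1 : ((n.choose (k + 1) : ℤ)) * (k + 1) = n.choose k * (n - k) := by
      rcases le_or_gt k n with h | h
      · have := Nat.choose_succ_right_eq n k
        zify [h] at this
        exact this
      · rw [Nat.choose_eq_zero_of_lt h, Nat.choose_eq_zero_of_lt (by omega : n < k + 1)]; simp
    have h2 : (((n + (k + 1)).choose n : ℕ) : ℤ) * (k + 1) = ((n + k).choose n : ℕ) * (n + k + 1) := by
      have := Nat.choose_mul_succ_eq (n + k) n
      have e : n + k + 1 - n = k + 1 := by omega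
      rw [e] at this
      have e2 : n + (k + 1) = n + k + 1 := by ring
      rw [e2]
      have h3 : (((n + k).choose n * (n + k + 1) : ℕ) : ℤ) = (((n + k + 1).choose n * (k + 1) : ℕ) : ℤ) := by
        exact_mod_cast this
      push_cast at h3
      linarith
    push_cast
    rw [pow_succ]
    have h3 : ((n.choose (k + 1) : ℤ)) * (((n + (k + 1)).choose n : ℕ) : ℤ) * (k + 1) ^ 2
        = n.choose k * (n - k) * (((n + k).choose n : ℕ) * (n + k + 1)) := by
      rw [← h1, ← h2]; ring
    linear_combination (-(-1) ^ k) * h3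

/-- the `3F2` polynomial -/
noncomputable def Hq (n : ℕ) : ℤ[X] :=
  ∑ k ∈ range (n + 1), C ((-1 : ℤ) ^ k * ((n + k).choose (2 * k) : ℤ) * (Nat.centralBinom k : ℤ) ^ 2)
    * X ^ k

lemma coeff_Hq (n k : ℕ) : (Hq n).coeff k
    = (-1) ^ k * ((n + k).choose (2 * k) : ℤ) * (Nat.centralBinom k : ℤ) ^ 2 := by
  unfold Hq
  rw [finsetSum_coeff]
  simp_rw [coeff_C_mul_X_pow]
  rw [Finset.sum_ite_eq]
  split_ifs with h
  · rfl
  · have : n + k < 2 * k := by simp at h; omega
    rw [Nat.choose_eq_zero_of_lt this]; simp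

lemma Hq_ode (n : ℕ) : th (th (th (Hq n))) = 2 * X * (2 * th (th (th (Hq n))) + 3 * th (th (Hq n))
    + th (Hq n) - (((n : ℤ) * (n + 1) : ℤ) : ℤ[X]) * (2 * th (Hq n) + Hq n)) := by
  ext k
  have e : 2 * X * (2 * th (th (th (Hq n))) + 3 * th (th (Hq n))
    + th (Hq n) - (((n : ℤ) * (n + 1) : ℤ) : ℤ[X]) * (2 * th (Hq n) + Hq n))
    = X * (((4 : ℤ) : ℤ[X]) * th (th (th (Hq n))) + ((6 : ℤ) : ℤ[X]) * th (th (Hq n))
    + ((2 : ℤ) : ℤ[X]) * th (Hq n) - ((2 * ((n : ℤ) * (n + 1)) : ℤ) : ℤ[X])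
      * (((2 : ℤ) : ℤ[X]) * th (Hq n) + Hq n)) := by
    push_cast; ring
  rw [e]
  rcases k with _ | k
  · rw [mul_coeff_zero, coeff_X_zero, coeff_th]; simp
  · rw [coeff_X_mul_succ]
    simp only [coeff_add, coeff_sub, coeff_intCast_mul, coeff_th, coeff_Hq]
    have h1 : (Nat.centralBinom (k + 1) : ℤ) * (k + 1) = 2 * (2 * k + 1) * Nat.centralBinom k := by
      have := Nat.succ_mul_centralBinom_succ k
      have h : (((k + 1) * Nat.centralBinom (k + 1) : ℕ) : ℤ) = ((2 * (2 * k + 1) * Nat.centralBinom k : ℕ) : ℤ) := by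
        exact_mod_cast this
      push_cast at h
      linarith
    have h2 : (((n + (k + 1)).choose (2 * (k + 1)) : ℕ) : ℤ) * ((2 * k + 2) * (2 * k + 1))
        = ((n + k).choose (2 * k) : ℕ) * ((n + k + 1) * (n - k)) := by
      have a1 := Nat.add_one_mul_choose_eq (n + k) (2 * k + 1)
      have a1' : (((n + k + 1) * (n + k).choose (2 * k + 1) : ℕ) : ℤ)
        = (((n + k + 1).choose (2 * k + 1 + 1) * (2 * k + 1 + 1) : ℕ) : ℤ) := by exact_mod_cast a1
      have a2 : (((n + k).choose (2 * k + 1) : ℕ) : ℤ) * (2 * k + 1) = ((n + k).choose (2 * k) : ℕ) * (n - k) := by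
        rcases le_or_gt k n with h | h
        · have := Nat.choose_succ_right_eq (n + k) (2 * k)
          have h' : (((n + k).choose (2 * k + 1) * (2 * k + 1) : ℕ) : ℤ)
            = (((n + k).choose (2 * k) * (n + k - 2 * k) : ℕ) : ℤ) := by exact_mod_cast this
          push_cast [Nat.cast_sub (by omega : 2 * k ≤ n + k)] at h'
          linarith
        · rw [Nat.choose_eq_zero_of_lt (by omega : n + k < 2 * k),
            Nat.choose_eq_zero_of_lt (by omega : n + k < 2 * k + 1)]; simp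
      have e1 : (n + k + 1).choose (2 * k + 1 + 1) = (n + (k + 1)).choose (2 * (k + 1)) := by
        congr 1
      rw [e1] at a1'
      push_cast at a1' a2 ⊢
      have : ((n : ℤ) + k + 1) * ((((n + k).choose (2 * k + 1) : ℕ) : ℤ) * (2 * k + 1))
        = ((n : ℤ) + k + 1) * (((n + k).choose (2 * k) : ℕ) * (n - k)) := by rw [a2]
      linear_combination this - (2 * (k : ℤ) + 1) * a1'
    push_cast
    rw [pow_succ]
    -- (k+1)^3 h_{k+1} = 2(2k+1)(k^2+k-c) h_k
    have h3 : (2 * (2 * (k : ℤ) + 1)) * (((n + (k + 1)).choose (2 * (k + 1)) : ℕ) : ℤ)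
        * (Nat.centralBinom (k + 1) : ℤ) ^ 2 * (k + 1) ^ 3
        = (2 * (2 * (k : ℤ) + 1)) * (((n + k).choose (2 * k) : ℕ) * ((n + k + 1) * (n - k))
          * (2 * (2 * k + 1)) * (Nat.centralBinom k : ℤ) ^ 2) := by
      have e3 : (2 * (2 * (k : ℤ) + 1)) * (((n + (k + 1)).choose (2 * (k + 1)) : ℕ) : ℤ)
        * (Nat.centralBinom (k + 1) : ℤ) ^ 2 * (k + 1) ^ 3
        = ((((n + (k + 1)).choose (2 * (k + 1)) : ℕ) : ℤ) * ((2 * k + 2) * (2 * k + 1)))
          * ((Nat.centralBinom (k + 1) : ℤ) * (k + 1)) ^ 2 := by ring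
      rw [e3, h1, h2]; ring
    have h4 : (2 * (2 * (k : ℤ) + 1)) ≠ 0 := by positivity
    have h5 : (((n + (k + 1)).choose (2 * (k + 1)) : ℕ) : ℤ)
        * (Nat.centralBinom (k + 1) : ℤ) ^ 2 * (k + 1) ^ 3
        = (((n + k).choose (2 * k) : ℕ) * ((n + k + 1) * (n - k))
          * (2 * (2 * k + 1)) * (Nat.centralBinom k : ℤ) ^ 2) := by
      apply mul_left_cancel₀ h4
      linear_combination h3
    linear_combination (-(-1) ^ k) * h5

/-- composition with `X (1 - X)` -/
lemma th_comp (K : ℤ[X]) : (1 - X) * th (K.comp (X * (1 - X))) = (1 - 2 * X) * (th K).comp (X * (1 - X)) := by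
  simp only [th, derivative_comp, mul_comp, X_comp, derivative_mul, derivative_X, derivative_sub,
    derivative_one]
  ring

lemma LL_legendre_sq (n : ℕ) : LL ((n : ℤ) * (n + 1)) (shiftedLegendre n ^ 2) = 0 := by
  have hode := legendre_ode n
  set y := shiftedLegendre n
  set c : ℤ[X] := (((n : ℤ) * (n + 1) : ℤ) : ℤ[X]) with hc
  unfold LL
  have h1 : th (y ^ 2) = 2 * y * th y := by rw [sq, th_mul]; ring
  have hcc : th c = 0 := th_intCast _
  have h2 : th (2 * y * th y) = 2 * th y ^ 2 + 2 * y * th (th y) := by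
    rw [mul_assoc, th_mul, th_mul, th_two]; ring
  have h3 : (1 - X) * ((1 - X) * th (th (y ^ 2)) - X * th (y ^ 2) + 2 * c * X * y ^ 2)
      = 2 * ((1 - X) * (1 - X)) * (th y * th y) := by
    rw [h1, h2]
    linear_combination (2 * y * (1 - X)) * hode
  rw [h3, h1]
  have h4 : th (2 * ((1 - X) * (1 - X)) * (th y * th y))
      = 2 * (2 * ((-X) * (1 - X))) * (th y * th y)
        + 2 * ((1 - X) * (1 - X)) * (2 * th y * th (th y)) := by
    have h5 : th (1 - X : ℤ[X]) = -X := by rw [th_sub, th_one, th_X]; ring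
    rw [th_mul, th_mul 2, th_two, th_mul (1 - X), h5, th_mul (th y)]
    ring
  rw [h4]
  linear_combination (4 * (1 - X) * th y) * hode

lemma LL_comp (n : ℕ) : LL ((n : ℤ) * (n + 1)) ((Hq n).comp (X * (1 - X))) = 0 := by
  have hode := Hq_ode n
  set H := Hq n
  set c : ℤ[X] := (((n : ℤ) * (n + 1) : ℤ) : ℤ[X]) with hc
  set P : ℤ[X] := X * (1 - X) with hP
  have hcomp : ∀ K : ℤ[X], (1 - X) * th (K.comp P) = (1 - 2 * X) * (th K).comp P := th_comp
  have hcc : th c = 0 := th_intCast _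
  have hccomp : c.comp P = c := by rw [hc]; simp
  have h5 : th (1 - X : ℤ[X]) = -X := by rw [th_sub, th_one, th_X]; ring
  have h6 : th (1 - 2 * X : ℤ[X]) = -2 * X := by
    rw [th_sub, th_one, th_mul, th_two, th_X]; ring
  -- (1-X) W
  set V : ℤ[X] := (1 - 4 * X) * th (th H) - 2 * X * th H + 2 * c * X * H with hV
  have key1 : (1 - X) * ((1 - X) * th (th (H.comp P)) - X * th (H.comp P) + 2 * c * X * H.comp P)
      = V.comp P := by
    have a1 : th ((1 - X) * th (H.comp P)) = th ((1 - 2 * X) * (th H).comp P) := by rw [hcomp]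
    rw [th_mul, th_mul, h5, h6] at a1
    have a2 := hcomp (th H)
    have hVc : V.comp P = (1 - 4 * P) * (th (th H)).comp P - 2 * P * (th H).comp P
        + 2 * c * P * H.comp P := by
      rw [hV]; simp [hccomp]
    rw [hVc, hP]
    have a3 := hcomp H
    rw [hP] at a1 a2 a3
    linear_combination (1 - X) * a1 + (1 - 2 * X) * a2
  have key2 : th V + 2 * c * X * th H = 0 := by
    have b1 : th V = -4 * X * th (th H) + (1 - 4 * X) * th (th (th H)) - 2 * X * th H
        - 2 * X * th (th H) + 2 * c * X * H + 2 * c * X * th H := by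
      rw [hV, th_add, th_sub, th_mul, th_sub, th_one, th_mul 4, th_four, th_X, th_mul (2 * X),
        th_mul 2, th_two, th_X, th_mul (2 * c * X), th_mul (2 * c), th_mul 2, th_two, hcc, th_X]
      ring
    rw [b1]
    linear_combination hode
  have key3 : (1 - X) * LL ((n : ℤ) * (n + 1)) (H.comp P) = 0 := by
    unfold LL
    rw [← hc, key1]
    have c1 := hcomp V
    have c2 := hcomp H
    have c3 : (th V + 2 * c * X * th H).comp P = 0 := by rw [key2]; simp
    have c4 : (th V + 2 * c * X * th H).comp P = (th V).comp P + 2 * c * P * (th H).comp P := by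
      simp [hccomp]
    rw [c4] at c3
    rw [hP] at c1 c2 c3 ⊢
    linear_combination c1 + 2 * c * X * (1 - X) * c2 + (1 - 2 * X) * c3
  rcases mul_eq_zero.1 key3 with h | h
  · have := congrArg (eval 0) h
    simp at this
  · exact h

/-- Clausen's identity for Legendre polynomials -/
theorem clausen_poly (n : ℕ) : shiftedLegendre n ^ 2 = (Hq n).comp (X * (1 - X)) := by
  rw [← sub_eq_zero]
  apply LL_unique ((n : ℤ) * (n + 1))
  · rw [LL_sub, LL_legendre_sq, LL_comp, sub_zero]
  · rw [eval_sub, eval_pow, eval_comp]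
    simp only [eval_mul, eval_X, eval_sub, eval_one, zero_mul]
    rw [← coeff_zero_eq_eval_zero, ← coeff_zero_eq_eval_zero, coeff_Hq, coeff_shiftedLegendre]
    simp

theorem clausen {R : Type*} [CommRing R] (n : ℕ) (t : R) : Fp n t ^ 2 =
    ∑ k ∈ range (n + 1), (-1) ^ k * ((n + k).choose (2 * k) : R) * (Nat.centralBinom k : R) ^ 2
      * (t * (1 - t)) ^ k := by
  rw [Fp_eq_aeval, ← map_pow, clausen_poly, aeval_comp]
  unfold Hq
  rw [map_sum]
  refine sum_congr rfl fun k _ => ?_
  simp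

end Pool.Agent.Lib.MP_7db704_nt
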