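import Mathlib
import Pool.Agent.Lib.MP_7db704_nt.Clausen

namespace Pool.Agent.Lib.MP_7db704_nt

open Finset

/-! product formulas over the integers, `p = 2h+1` -/

lemma choose_prod (h k : ℕ) : ∀ _ : k ≤ h, (2 : ℤ) ^ k * (k.factorial : ℤ) * (h.choose k : ℤ)
    = ∏ i ∈ range k, ((2 * h + 1 : ℤ) - (2 * i + 1)) := by
  induction k with
  | zero => intro _; simp
  | succ k ih =>
    intro hk
    rw [prod_range_succ, ← ih (by omega)]
    have h1 : ((h.choose (k + 1) : ℤ)) * (k + 1) = h.choose k * (h - k) := by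
      have := Nat.choose_succ_right_eq h k
      zify [(by omega : k ≤ h)] at this
      exact this
    rw [Nat.factorial_succ, pow_succ]
    push_cast
    linear_combination (2 * (2 : ℤ) ^ k * (k.factorial : ℤ)) * h1

lemma choose_add_prod (h k : ℕ) : (2 : ℤ) ^ k * (k.factorial : ℤ) * ((h + k).choose h : ℤ)
    = ∏ i ∈ range k, ((2 * h + 1 : ℤ) + (2 * i + 1)) := by
  induction k with
  | zero => simp
  | succ k ih =>
    rw [prod_range_succ, ← ih]
    have h2 : (((h + (k + 1)).choose h : ℕ) : ℤ) * (k + 1) = ((h + k).choose h : ℕ) * (h + k + 1) := by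
      have := Nat.choose_mul_succ_eq (h + k) h
      have e : h + k + 1 - h = k + 1 := by omega
      rw [e] at this
      have e2 : h + (k + 1) = h + k + 1 := by ring
      rw [e2]
      have h3 : (((h + k).choose h * (h + k + 1) : ℕ) : ℤ) = (((h + k + 1).choose h * (k + 1) : ℕ) : ℤ) := by
        exact_mod_cast this
      push_cast at h3
      linarith
    rw [Nat.factorial_succ, pow_succ]
    push_cast at h2 ⊢
    linear_combination (2 * (2 : ℤ) ^ k * (k.factorial : ℤ)) * h2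

lemma centralBinom_prod (k : ℕ) : (k.factorial : ℤ) * (Nat.centralBinom k : ℤ)
    = 2 ^ k * ∏ i ∈ range k, (2 * i + 1 : ℤ) := by
  induction k with
  | zero => simp
  | succ k ih =>
    rw [prod_range_succ]
    have h1 : (Nat.centralBinom (k + 1) : ℤ) * (k + 1) = 2 * (2 * k + 1) * Nat.centralBinom k := by
      have := Nat.succ_mul_centralBinom_succ k
      have h : (((k + 1) * Nat.centralBinom (k + 1) : ℕ) : ℤ) = ((2 * (2 * k + 1) * Nat.centralBinom k : ℕ) : ℤ) := by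
        exact_mod_cast this
      push_cast at h
      linarith
    rw [Nat.factorial_succ, pow_succ]
    push_cast
    linear_combination (k.factorial : ℤ) * h1 + (2 * (2 * (k : ℤ) + 1)) * ih

section Ring

variable {S : Type*} [CommRing S]

lemma prod_expand (q : S) (hq : q ^ 2 = 0) (a : ℕ → S) (k : ℕ) :
    (∏ i ∈ range k, (q - a i)) + (-1) ^ k * ∏ i ∈ range k, (q + a i) = 2 * ((-1) ^ k * ∏ i ∈ range k, a i)
    ∧ (∃ l, (∏ i ∈ range k, (q - a i)) = (-1) ^ k * (∏ i ∈ range k, a i) + q * l)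
    ∧ (∃ l, (∏ i ∈ range k, (q + a i)) = (∏ i ∈ range k, a i) + q * l) := by
  induction k with
  | zero => exact ⟨by simp; ring, ⟨0, by simp⟩, ⟨0, by simp⟩⟩
  | succ k ih =>
    obtain ⟨h1, ⟨l1, h2⟩, ⟨l2, h3⟩⟩ := ih
    rw [prod_range_succ, prod_range_succ, prod_range_succ]
    set U := ∏ i ∈ range k, (q - a i)
    set V := ∏ i ∈ range k, (q + a i)
    set W := ∏ i ∈ range k, a i
    have hq' : q * q = 0 := by rw [← sq]; exact hq
    have hqq : q * (U - (-1) ^ k * V) = 0 := by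
      rw [h2, h3]
      have : q * ((-1) ^ k * W + q * l1 - (-1) ^ k * (W + q * l2)) = (q * q) * (l1 - (-1) ^ k * l2) := by ring
      rw [this, hq', zero_mul]
    refine ⟨?_, ⟨(-1) ^ k * W + q * l1 - a k * l1, ?_⟩, ⟨W + q * l2 + a k * l2, ?_⟩⟩
    · rw [pow_succ]
      linear_combination hqq - (a k) * h1
    · rw [h2, pow_succ]; ring
    · rw [h3]; ring

lemma prod_mul (q : S) (hq : q ^ 2 = 0) (a : ℕ → S) (k : ℕ) :
    (∏ i ∈ range k, (q - a i)) * (∏ i ∈ range k, (q + a i)) = (-1) ^ k * (∏ i ∈ range k, a i) ^ 2 := by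
  induction k with
  | zero => simp
  | succ k ih =>
    rw [prod_range_succ, prod_range_succ, prod_range_succ, pow_succ, mul_pow]
    set U := ∏ i ∈ range k, (q - a i)
    set V := ∏ i ∈ range k, (q + a i)
    set W := ∏ i ∈ range k, a i
    linear_combination (q ^ 2 - (a k) ^ 2) * ih + ((-1) ^ k * W ^ 2) * hq

end Ring

section ModPsq

variable {h : ℕ}

lemma unit_factorial (hp : (2 * h + 1).Prime) {k : ℕ} (hk : k < 2 * h + 1) :
    IsUnit ((k.factorial : ZMod ((2 * h + 1) ^ 2))) := by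
  rw [ZMod.isUnit_iff_coprime]
  apply Nat.Coprime.pow_right
  rw [Nat.coprime_comm, Nat.Prime.coprime_iff_not_dvd hp, hp.dvd_factorial]
  omega

lemma unit_two (hp : (2 * h + 1).Prime) : IsUnit (2 : ZMod ((2 * h + 1) ^ 2)) := by
  have h2 : IsUnit (((2 : ℕ) : ZMod ((2 * h + 1) ^ 2))) := by
    rw [ZMod.isUnit_iff_coprime]
    apply Nat.Coprime.pow_right
    rw [Nat.coprime_comm, Nat.Prime.coprime_iff_not_dvd hp]
    intro hd
    have := Nat.le_of_dvd (by norm_num) hd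
    have := hp.one_lt
    omega
  exact_mod_cast h2

lemma q_sq : (((2 * h + 1 : ℕ) : ZMod ((2 * h + 1) ^ 2))) ^ 2 = 0 := by
  have := ZMod.natCast_self ((2 * h + 1) ^ 2)
  rw [← Nat.cast_pow]; exact this

lemma castProd (k : ℕ) (f : ℕ → ℤ) : (((∏ i ∈ range k, f i : ℤ)) : ZMod ((2 * h + 1) ^ 2))
    = ∏ i ∈ range k, ((f i : ℤ) : ZMod ((2 * h + 1) ^ 2)) := by
  rw [Int.cast_prod]

/-- (M1) -/
lemma choose_sum_modp (hp : (2 * h + 1).Prime) {k : ℕ} (hk : k ≤ h) :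
    (4 : ZMod ((2 * h + 1) ^ 2)) ^ k * ((h.choose k : ZMod ((2 * h + 1) ^ 2))
      + (-1) ^ k * ((h + k).choose h : ZMod ((2 * h + 1) ^ 2)))
      = 2 * ((-1) ^ k * (Nat.centralBinom k : ZMod ((2 * h + 1) ^ 2))) := by
  have hu := unit_factorial hp (k := k) (by omega)
  apply hu.mul_left_cancel
  have e1 := congrArg (Int.cast : ℤ → ZMod ((2 * h + 1) ^ 2)) (choose_prod h k hk)
  have e2 := congrArg (Int.cast : ℤ → ZMod ((2 * h + 1) ^ 2)) (choose_add_prod h k)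
  have e3 := congrArg (Int.cast : ℤ → ZMod ((2 * h + 1) ^ 2)) (centralBinom_prod k)
  have e4 := (prod_expand (((2 * h + 1 : ℕ) : ZMod ((2 * h + 1) ^ 2))) q_sq
    (fun i => (2 * i + 1 : ZMod ((2 * h + 1) ^ 2))) k).1
  push_cast at e1 e2 e3 e4
  rw [← e1, ← e2] at e4
  have h4 : (4 : ZMod ((2 * h + 1) ^ 2)) ^ k = 2 ^ k * 2 ^ k := by rw [← mul_pow]; norm_num
  rw [h4]
  linear_combination (2 : ZMod ((2 * h + 1) ^ 2)) ^ k * e4 - (2 * (-1) ^ k) * e3

/-- (M4) -/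
lemma choose_sub_modp (hp : (2 * h + 1).Prime) {k : ℕ} (hk : k ≤ h) :
    ∃ l : ZMod ((2 * h + 1) ^ 2), (h.choose k : ZMod ((2 * h + 1) ^ 2))
      - (-1) ^ k * ((h + k).choose h : ZMod ((2 * h + 1) ^ 2)) = ((2 * h + 1 : ℕ) : ZMod ((2 * h + 1) ^ 2)) * l := by
  obtain ⟨u, hu⟩ := unit_factorial hp (k := k) (by omega)
  obtain ⟨v, hv⟩ := (unit_two hp).pow k
  have e1 := congrArg (Int.cast : ℤ → ZMod ((2 * h + 1) ^ 2)) (choose_prod h k hk)
  have e2 := congrArg (Int.cast : ℤ → ZMod ((2 * h + 1) ^ 2)) (choose_add_prod h k)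
  obtain ⟨_, ⟨l1, h1⟩, ⟨l2, h2⟩⟩ := prod_expand (((2 * h + 1 : ℕ) : ZMod ((2 * h + 1) ^ 2))) q_sq
    (fun i => (2 * i + 1 : ZMod ((2 * h + 1) ^ 2))) k
  push_cast at e1 e2 h1 h2
  rw [h1] at e1
  rw [h2] at e2
  refine ⟨((v⁻¹ : (ZMod ((2 * h + 1) ^ 2))ˣ) : ZMod ((2 * h + 1) ^ 2))
    * ((u⁻¹ : (ZMod ((2 * h + 1) ^ 2))ˣ) : ZMod ((2 * h + 1) ^ 2)) * (l1 - (-1) ^ k * l2), ?_⟩
  have huv : ((v : ZMod ((2 * h + 1) ^ 2)) * u) * (((v⁻¹ : (ZMod ((2 * h + 1) ^ 2))ˣ) : ZMod ((2 * h + 1) ^ 2))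
    * ((u⁻¹ : (ZMod ((2 * h + 1) ^ 2))ˣ) : ZMod ((2 * h + 1) ^ 2))) = 1 := by
    rw [mul_mul_mul_comm, Units.mul_inv, Units.mul_inv, one_mul]
  have hunit : IsUnit ((v : ZMod ((2 * h + 1) ^ 2)) * u) := v.isUnit.mul u.isUnit
  apply hunit.mul_left_cancel
  rw [← hu, ← hv] at e1 e2
  push_cast
  linear_combination e1 - (-1) ^ k * e2 - ((2 * (h : ZMod ((2 * h + 1) ^ 2)) + 1) * (l1 - (-1) ^ k * l2)) * huv

/-- (M2) -/
lemma choose_two_modp (hp : (2 * h + 1).Prime) {k : ℕ} (hk : k ≤ h) :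
    (16 : ZMod ((2 * h + 1) ^ 2)) ^ k * ((h + k).choose (2 * k) : ZMod ((2 * h + 1) ^ 2))
      = (-1) ^ k * (Nat.centralBinom k : ZMod ((2 * h + 1) ^ 2)) := by
  have hu := unit_factorial hp (k := 2 * k) (by omega)
  apply hu.mul_left_cancel
  have e1 := congrArg (Int.cast : ℤ → ZMod ((2 * h + 1) ^ 2)) (choose_prod h k hk)
  have e2 := congrArg (Int.cast : ℤ → ZMod ((2 * h + 1) ^ 2)) (choose_add_prod h k)
  have e3 := congrArg (Int.cast : ℤ → ZMod ((2 * h + 1) ^ 2)) (centralBinom_prod k)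
  have e4 := prod_mul (((2 * h + 1 : ℕ) : ZMod ((2 * h + 1) ^ 2))) q_sq
    (fun i => (2 * i + 1 : ZMod ((2 * h + 1) ^ 2))) k
  push_cast at e1 e2 e3 e4
  rw [← e1, ← e2] at e4
  -- (2k)! = cb k!^2
  have f1 : ((2 * k).factorial : ZMod ((2 * h + 1) ^ 2))
      = (Nat.centralBinom k : ZMod ((2 * h + 1) ^ 2)) * (k.factorial * k.factorial) := by
    have := Nat.choose_mul_factorial_mul_factorial (by omega : k ≤ 2 * k)
    rw [← Nat.centralBinom_eq_two_mul_choose, show 2 * k - k = k by omega] at this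
    rw [← this]; push_cast; ring
  have f2 : (Nat.centralBinom k : ZMod ((2 * h + 1) ^ 2)) * ((h + k).choose (2 * k) : ZMod ((2 * h + 1) ^ 2))
      = ((h + k).choose h : ZMod ((2 * h + 1) ^ 2)) * (h.choose k : ZMod ((2 * h + 1) ^ 2)) := by
    have := Nat.choose_mul (n := h + k) (k := 2 * k) (s := k) (by omega)
    rw [← Nat.centralBinom_eq_two_mul_choose, show 2 * k - k = k by omega,
      show h + k - k = h by omega] at this
    have h3 : (h + k).choose k = (h + k).choose h := by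
      rw [← Nat.choose_symm (by omega : k ≤ h + k)]; congr 1; omega
    rw [h3] at this
    have h4 := congrArg (Nat.cast : ℕ → ZMod ((2 * h + 1) ^ 2)) this
    push_cast at h4
    linear_combination h4
  have h16 : (16 : ZMod ((2 * h + 1) ^ 2)) ^ k = 2 ^ k * 2 ^ k * (2 ^ k * 2 ^ k) := by
    rw [← mul_pow, ← mul_pow]; norm_num
  rw [h16, f1]
  set W := ∏ i ∈ range k, (2 * (i : ZMod ((2 * h + 1) ^ 2)) + 1)
  have e5 : ((k.factorial : ZMod ((2 * h + 1) ^ 2)) * (Nat.centralBinom k : ZMod ((2 * h + 1) ^ 2))) ^ 2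
      = (2 ^ k * W) ^ 2 := by rw [e3]
  linear_combination (2 ^ k * 2 ^ k * (2 ^ k * 2 ^ k) * (k.factorial : ZMod ((2 * h + 1) ^ 2)) ^ 2) * f2
    + (2 ^ k * 2 ^ k) * e4 - (-1) ^ k * e5

/-- (M3) -/
lemma centralBinom_sq_modp (hp : (2 * h + 1).Prime) {k : ℕ} (hk : h < k) (hk2 : k < 2 * h + 1) :
    (Nat.centralBinom k : ZMod ((2 * h + 1) ^ 2)) ^ 2 = 0 := by
  have hdvd : (2 * h + 1) ∣ Nat.centralBinom k := by
    have h1 := Nat.choose_mul_factorial_mul_factorial (by omega : k ≤ 2 * k)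
    rw [← Nat.centralBinom_eq_two_mul_choose, show 2 * k - k = k by omega] at h1
    have h2 : (2 * h + 1) ∣ (2 * k).factorial := by rw [hp.dvd_factorial]; omega
    rw [← h1, hp.dvd_mul, hp.dvd_mul, hp.dvd_factorial] at h2
    omega
  obtain ⟨m, hm⟩ := hdvd
  rw [hm]
  push_cast
  have := q_sq (h := h)
  push_cast at this
  linear_combination ((m : ZMod ((2 * h + 1) ^ 2)) ^ 2) * this

end ModPsq

end Pool.Agent.Lib.MP_7db704_nt
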